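import Pool.Agent.Y782.WU.Stm

/-! Job WU-RAY for helper782: pairwise negative correlation of the edges of the uniform
spanning tree. -/

set_option autoImplicit false

open Filter Topology Matrix

namespace Pool.Agent.Y420.WU

open Pool.Agent.Y782.WU

/-! ### linear algebra -/

section la

variable {n : Type} [Fintype n] [DecidableEq n]

/-- rank two updates -/
theorem upd (A : Matrix n n ℝ) (hA : IsUnit A.det) (hs : Aᵀ = A) (b c : n → ℝ) :
    ∃ x y z : ℝ, ∀ s t : ℝ, (A + s • vecMulVec b b + t • vecMulVec c c).det =
      A.det * ((1 + s * x) * (1 + t * y) - s * t * z ^ 2) := by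
  have hsym : (A⁻¹)ᵀ = A⁻¹ := by rw [transpose_nonsing_inv, hs]
  refine ⟨(b ᵥ* A⁻¹) ⬝ᵥ b, (c ᵥ* A⁻¹) ⬝ᵥ c, (b ᵥ* A⁻¹) ⬝ᵥ c, fun s t => ?_⟩
  have hz : (c ᵥ* A⁻¹) ⬝ᵥ b = (b ᵥ* A⁻¹) ⬝ᵥ c := by
    rw [dotProduct_comm, ← mulVec_transpose, hsym, dotProduct_mulVec]
  have h1 : A + s • vecMulVec b b + t • vecMulVec c c =
      A + (Matrix.of fun (i : n) (k : Fin 2) => ![s * b i, t * c i] k) *
        (Matrix.of fun (k : Fin 2) (i : n) => ![b i, c i] k) := by
    ext i j
    simp only [Matrix.add_apply, Matrix.smul_apply, vecMulVec_apply, Matrix.mul_apply,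
      Fin.sum_univ_two, of_apply, cons_val_zero, cons_val_one, smul_eq_mul]
    ring
  have h2 : ∀ (u v : n → ℝ) (r : ℝ), ∑ j, (∑ i, u i * A⁻¹ i j) * (r * v j) =
      r * ((u ᵥ* A⁻¹) ⬝ᵥ v) := by
    intro u v r
    simp only [dotProduct, vecMul, Finset.mul_sum]
    apply Finset.sum_congr rfl
    intro j _
    ring
  rw [h1, det_add_mul _ _ hA, det_fin_two]
  simp only [Matrix.add_apply, Matrix.mul_apply, of_apply, cons_val_zero, cons_val_one,
    Matrix.one_apply_eq, h2]
  rw [Matrix.one_apply_ne (by decide : (0 : Fin 2) ≠ 1),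
    Matrix.one_apply_ne (by decide : (1 : Fin 2) ≠ 0), hz]
  ring

theorem detineq (L : Matrix n n ℝ) (hL : L.PosSemidef) (b c : n → ℝ) :
    L.det * (L + vecMulVec b b + vecMulVec c c).det ≤
      (L + vecMulVec b b).det * (L + vecMulVec c c).det := by
  have key : ∀ ε : ℝ, 0 < ε →
      0 ≤ ((L + ε • 1) + vecMulVec b b).det * ((L + ε • 1) + vecMulVec c c).det -
        (L + ε • 1).det * ((L + ε • 1) + vecMulVec b b + vecMulVec c c).det := by
    intro ε hε
    have hP : (L + ε • (1 : Matrix n n ℝ)).PosDef := by
      rw [add_comm]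
      exact (PosDef.one.smul hε).add_posSemidef hL
    have hdet := hP.det_pos
    have hs : (L + ε • (1 : Matrix n n ℝ))ᵀ = L + ε • 1 := by
      have := hP.1
      rw [IsHermitian, conjTranspose_eq_transpose_of_trivial] at this
      exact this
    obtain ⟨x, y, z, h⟩ := upd (L + ε • 1) (isUnit_iff_ne_zero.2 hdet.ne') hs b c
    have h10 := h 1 0
    have h01 := h 0 1
    have h11 := h 1 1
    simp only [one_smul, zero_smul, add_zero] at h10 h01 h11
    rw [h10, h01, h11]
    have h3 : 0 ≤ ((L + ε • (1 : Matrix n n ℝ)).det * z) ^ 2 := sq_nonneg _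
    nlinarith
  have hc : Continuous fun ε : ℝ =>
      ((L + ε • 1) + vecMulVec b b).det * ((L + ε • 1) + vecMulVec c c).det -
        (L + ε • 1).det * ((L + ε • 1) + vecMulVec b b + vecMulVec c c).det := by
    have h0 : Continuous fun ε : ℝ => L + ε • (1 : Matrix n n ℝ) :=
      continuous_const.add (continuous_id.smul continuous_const)
    exact (((h0.add continuous_const).matrix_det).mul ((h0.add continuous_const).matrix_det)).sub
      (h0.matrix_det.mul (((h0.add continuous_const).add continuous_const).matrix_det))
  have hlim := (hc.tendsto 0).mono_left (nhdsWithin_le_nhds (s := Set.Ioi (0 : ℝ)))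
  have h4 := ge_of_tendsto hlim (by
    filter_upwards [self_mem_nhdsWithin] with ε hε
    exact key ε hε)
  simp only [zero_smul, add_zero] at h4
  linarith

end la

/-! ### weights -/

open Classical in
/-- the weight of an edge -/
noncomputable def xg {E : Type} (Y O : Finset E) (e f : E) (l s t : ℝ) (g : E) : ℝ :=
  (if g = e then s else 1) * (if g = f then t else 1) * (if g ∈ O then 0 else 1) *
    (if g ∈ Y then l else 1)

open Classical in
theorem prod_xg {E : Type} (Y O : Finset E) (e f : E) (l s t : ℝ) (S : Finset E) :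
    ∏ g ∈ S, xg Y O e f l s t g = (if e ∈ S then s else 1) * (if f ∈ S then t else 1) *
      (if Disjoint S O then 1 else 0) * l ^ (S ∩ Y).card := by
  unfold xg
  rw [Finset.prod_mul_distrib, Finset.prod_mul_distrib, Finset.prod_mul_distrib,
    Finset.prod_ite_eq', Finset.prod_ite_eq']
  congr 1
  · congr 1
    by_cases h : Disjoint S O
    · rw [if_pos h]
      apply Finset.prod_eq_one
      intro g hg
      rw [if_neg (Finset.disjoint_left.1 h hg)]
    · rw [if_neg h]
      rw [Finset.not_disjoint_iff] at h
      obtain ⟨g, hg, hg'⟩ := h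
      exact Finset.prod_eq_zero hg (by rw [if_pos hg'])
  · rw [Finset.prod_ite, Finset.prod_const_one, mul_one, Finset.prod_const,
      Finset.filter_mem_eq_inter]

section cnt

variable {W E : Type} (M : FG W E) (Y O : Finset E) (e f : E)

open Classical in
/-- a class of spanning trees -/
noncomputable def cl (pe pf : Prop) : Finset (Finset E) :=
  M.D.powerset.filter (fun S => IsST M S ∧ Disjoint S O ∧ (e ∈ S ↔ pe) ∧ (f ∈ S ↔ pf))

open Classical in
/-- its generating function -/
noncomputable def Nc (pe pf : Prop) (l : ℝ) : ℝ := ∑ S ∈ cl M O e f pe pf, l ^ (S ∩ Y).card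

open Classical in
theorem tot (l s t : ℝ) :
    ∑ S ∈ M.D.powerset.filter (fun S => IsST M S), ∏ g ∈ S, xg Y O e f l s t g =
      Nc M Y O e f False False l + s * Nc M Y O e f True False l +
        t * Nc M Y O e f False True l + s * t * Nc M Y O e f True True l := by
  have h1 : ∀ pe pf : Prop, Nc M Y O e f pe pf l =
      ∑ S ∈ M.D.powerset.filter (fun S => IsST M S),
        if (Disjoint S O ∧ (e ∈ S ↔ pe) ∧ (f ∈ S ↔ pf)) then l ^ (S ∩ Y).card else 0 := by
    intro pe pf
    unfold Nc cl
    rw [← Finset.sum_filter, Finset.filter_filter]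
  rw [h1, h1, h1, h1, Finset.mul_sum, Finset.mul_sum, Finset.mul_sum, ← Finset.sum_add_distrib,
    ← Finset.sum_add_distrib, ← Finset.sum_add_distrib]
  apply Finset.sum_congr rfl
  intro S _
  rw [prod_xg]
  by_cases h : Disjoint S O <;> by_cases he : e ∈ S <;> by_cases hf : f ∈ S <;>
    simp [h, he, hf]

open Classical in
theorem lim (pe pf : Prop) : Tendsto (fun l : ℝ => Nc M Y O e f pe pf l / l ^ Y.card) atTop
    (𝓝 (((cl M O e f pe pf).filter (fun S => Y ⊆ S)).card : ℝ)) := by
  have h1 : (((cl M O e f pe pf).filter (fun S => Y ⊆ S)).card : ℝ) =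
      ∑ S ∈ cl M O e f pe pf, if Y ⊆ S then (1 : ℝ) else 0 := by
    rw [← Finset.sum_filter, Finset.sum_const, nsmul_eq_mul, mul_one]
  rw [h1]
  unfold Nc
  simp only [Finset.sum_div]
  apply tendsto_finsetSum
  intro S _
  by_cases h : Y ⊆ S
  · rw [if_pos h, Finset.inter_eq_right.2 h]
    apply tendsto_const_nhds.congr'
    filter_upwards [eventually_gt_atTop 0] with l hl
    rw [div_self (pow_ne_zero _ hl.ne')]
  · rw [if_neg h]
    have hlt : (S ∩ Y).card < Y.card := by
      apply Finset.card_lt_card
      rw [Finset.ssubset_iff_subset_ne]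
      refine ⟨Finset.inter_subset_right, fun h2 => h (Finset.inter_eq_right.1 h2)⟩
    exact tendsto_pow_div_pow_atTop_zero hlt

open Classical in
theorem key (h : S_MT) (he : e ∈ M.D) (hf : f ∈ M.D) (hef : e ≠ f) (heY : e ∉ Y) (heO : e ∉ O)
    (hfY : f ∉ Y) (hfO : f ∉ O) (r : W) (hr : r ∈ M.A) (l : ℝ) (hl : 0 ≤ l) :
    Nc M Y O e f True True l * Nc M Y O e f False False l ≤
      Nc M Y O e f True False l * Nc M Y O e f False True l := by
  have hfe : f ∈ M.D.erase e := Finset.mem_erase.2 ⟨hef.symm, hf⟩
  set R := (M.D.erase e).erase f with hR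
  set y : E → ℝ := fun g => (if g ∈ O then 0 else 1) * (if g ∈ Y then l else 1) with hy
  have hy0 : ∀ g, 0 ≤ y g := by
    intro g
    simp only [hy]
    split_ifs <;> simp [hl]
  set ic : E → {v // v ∈ M.A.erase r} → ℝ := fun g v => inc M g v with hic
  set L : Matrix {v // v ∈ M.A.erase r} {v // v ∈ M.A.erase r} ℝ :=
    ∑ g ∈ R, y g • vecMulVec (ic g) (ic g) with hL
  have hLp : L.PosSemidef := by
    rw [hL]
    apply Matrix.posSemidef_sum
    intro g _
    apply PosSemidef.smul _ (hy0 g)
    have := posSemidef_vecMulVec_self_star (ic g)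
    rwa [star_trivial] at this
  have hmat : ∀ s t : ℝ, L + s • vecMulVec (ic e) (ic e) + t • vecMulVec (ic f) (ic f) =
      Matrix.of (fun v w : {v // v ∈ M.A.erase r} =>
        ∑ g ∈ M.D, xg Y O e f l s t g * inc M g v * inc M g w) := by
    intro s t
    ext v w
    rw [of_apply, ← Finset.add_sum_erase _ _ he, ← Finset.add_sum_erase _ _ hfe,
      Matrix.add_apply, Matrix.add_apply, hL, Matrix.sum_apply]
    have h1 : xg Y O e f l s t e = s := by
      simp [xg, hef, heY, heO]
    have h2 : xg Y O e f l s t f = t := by
      simp [xg, hef.symm, hfY, hfO]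
    have h3 : ∀ g ∈ R, xg Y O e f l s t g = y g := by
      intro g hg
      rw [hR, Finset.mem_erase, Finset.mem_erase] at hg
      simp only [xg, hy, if_neg hg.1, if_neg hg.2.1, one_mul]
    have h5 : ∑ g ∈ (M.D.erase e).erase f, xg Y O e f l s t g * inc M g v * inc M g w =
        ∑ g ∈ R, y g * inc M g v * inc M g w :=
      Finset.sum_congr rfl fun g hg => by rw [h3 g hg]
    rw [h1, h2, h5]
    simp only [Matrix.smul_apply, vecMulVec_apply, smul_eq_mul, hic]
    have h4 : ∑ g ∈ R, y g * (inc M g v * inc M g w) = ∑ g ∈ R, y g * inc M g v * inc M g w := by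
      apply Finset.sum_congr rfl
      intros
      ring
    rw [h4]
    ring
  have hdet : ∀ s t : ℝ, (L + s • vecMulVec (ic e) (ic e) + t • vecMulVec (ic f) (ic f)).det =
      Nc M Y O e f False False l + s * Nc M Y O e f True False l +
        t * Nc M Y O e f False True l + s * t * Nc M Y O e f True True l := by
    intro s t
    rw [hmat s t, h W E M r hr (xg Y O e f l s t), tot]
  have h00 := hdet 0 0
  have h10 := hdet 1 0
  have h01 := hdet 0 1
  have h11 := hdet 1 1
  have hmain := detineq L hLp (ic e) (ic f)
  rw [zero_smul, zero_smul, add_zero, add_zero] at h00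
  rw [one_smul, zero_smul, add_zero] at h10
  rw [one_smul, zero_smul, add_zero] at h01
  rw [one_smul, one_smul] at h11
  rw [h00, h10, h01, h11] at hmain
  nlinarith

end cnt

open Classical in
theorem ray (h : S_MT) : S_RAY := by
  intro W E M Y O e f hef heY heO hfY hfO
  have hzero : ∀ Y' O' : Finset E, (¬ Y' ⊆ M.D) → NS M Y' O' tr = 0 := by
    intro Y' O' hY
    unfold NS
    rw [Finset.card_eq_zero, Finset.filter_eq_empty_iff]
    intro S hS hc
    rw [Finset.mem_powerset] at hS
    exact hY (hc.2.1.trans hS)
  by_cases he : e ∈ M.D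
  · by_cases hf : f ∈ M.D
    · rcases M.A.eq_empty_or_nonempty with hA | ⟨r, hr⟩
      · have : NS M (insert e (insert f Y)) O tr = 0 := by
          unfold NS
          rw [Finset.card_eq_zero, Finset.filter_eq_empty_iff]
          intro S _ hc
          have := hc.1.2.1
          rw [hA, Finset.card_empty] at this
          omega
        rw [this, zero_mul]
        exact Nat.zero_le _
      · have l1 := lim M Y O e f True True
        have l2 := lim M Y O e f False False
        have l3 := lim M Y O e f True False
        have l4 := lim M Y O e f False True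
        have hle := le_of_tendsto_of_tendsto (l1.mul l2) (l3.mul l4) (by
          filter_upwards [eventually_gt_atTop 0] with l hl
          have hk := key M Y O e f h he hf hef heY heO hfY hfO r hr l hl.le
          have hp : 0 < l ^ Y.card := pow_pos hl _
          rw [div_mul_div_comm, div_mul_div_comm]
          exact div_le_div_of_nonneg_right hk (mul_pos hp hp).le)
        have e1 : ((cl M O e f True True).filter (fun S => Y ⊆ S)).card =
            NS M (insert e (insert f Y)) O tr := by
          unfold cl NS
          rw [Finset.filter_filter]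
          congr 1
          ext S
          simp only [Finset.mem_filter, Finset.insert_subset_iff, tr]
          tauto
        have e2 : ((cl M O e f False False).filter (fun S => Y ⊆ S)).card =
            NS M Y (insert e (insert f O)) tr := by
          unfold cl NS
          rw [Finset.filter_filter]
          congr 1
          ext S
          simp only [Finset.mem_filter, Finset.disjoint_insert_right, tr]
          tauto
        have e3 : ((cl M O e f True False).filter (fun S => Y ⊆ S)).card =
            NS M (insert e Y) (insert f O) tr := by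
          unfold cl NS
          rw [Finset.filter_filter]
          congr 1
          ext S
          simp only [Finset.mem_filter, Finset.insert_subset_iff, Finset.disjoint_insert_right, tr]
          tauto
        have e4 : ((cl M O e f False True).filter (fun S => Y ⊆ S)).card =
            NS M (insert f Y) (insert e O) tr := by
          unfold cl NS
          rw [Finset.filter_filter]
          congr 1
          ext S
          simp only [Finset.mem_filter, Finset.insert_subset_iff, Finset.disjoint_insert_right, tr]
          tauto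
        rw [e1, e2, e3, e4] at hle
        exact_mod_cast hle
    · rw [hzero _ _ (fun hs => hf (hs (by simp))), zero_mul]
      exact Nat.zero_le _
  · rw [hzero _ _ (fun hs => he (hs (by simp))), zero_mul]
    exact Nat.zero_le _

end Pool.Agent.Y420.WU
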